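import Pool.Agent.N600.L3.Red2
import Pool.Agent.N600.G3.Core
import Pool.Agent.W963.GE.Dob
import Pool.Agent.Y552.CP.Lin
import Pool.Agent.TH53.UG4

set_option autoImplicit false

namespace Pool.Agent.N600.L3

open scoped Pointwise commutatorElement
open Subgroup Filter Topology Polynomial
open Pool.Agent.N600.G3 (Crossed AA CT cj hh cj_cj cj_one CT_sub comm_le cj_comm_mem f_one
  card_pow_mul_le one_le_card card_map_pow finite_pow)
open Pool.Agent.W963.GE (MM MM_ge UnitNotRoot mm_dob)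
open Pool.Agent.H785R3.GrowthA (NoFree)

universe u

/-- finiteness of the derived subgroups in the case of small growth -/
theorem fgs {G : Type u} [Group G] (T : Set G) (hfin : T.Finite) (h1T : 1 ∈ T)
    (hinv : T⁻¹ = T) (hgen : closure T = ⊤)
    (habel : ∀ x ∈ commutator (commutator G), ∀ y ∈ commutator (commutator G), x * y = y * x) :
    (∀ n : ℕ, 2 ^ n ≤ (Nat.card ↥(T ^ n)) ^ 88) ∨
      ((commutator G).FG ∧ (commutator (commutator G)).FG) := by
  by_cases hNF : NoFree T 3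
  swap
  · left
    exact fun n => (Pool.Agent.TH555.FG.two_pow_of_pair hfin hNF n).trans
      (Nat.pow_le_pow_right (one_le_card hfin h1T n) (by norm_num))
  have hab : Group.IsNilpotent (G ⧸ commutator G) := by
    have : Group.IsNilpotent (Abelianization G) := CommGroup.isNilpotent
    exact this
  have hFG : (commutator G).FG :=
    Pool.Agent.TH555.FG.fg_of_nilpotent_quotient hfin hgen hNF (commutator G) hab
  by_cases hN : (commutator (commutator G)).FG
  · exact Or.inr ⟨hFG, hN⟩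
  · left
    obtain ⟨K, hK, h⟩ := G3.red G3.alg G3.thA G T hfin h1T hinv hgen hFG habel hN
    intro n
    have h1 := h n
    have h2 : Nat.card ↥(T ^ (22 * K * n)) ≤ (Nat.card ↥(T ^ n)) ^ (22 * K) :=
      card_pow_mul_le T n _
    have h3 : (2 ^ n) ^ K ≤ ((Nat.card ↥(T ^ n)) ^ 88) ^ K := by
      calc (2 ^ n) ^ K = 2 ^ (K * n) := by rw [← pow_mul, mul_comm]
        _ ≤ (Nat.card ↥(T ^ (22 * K * n))) ^ 4 := h1
        _ ≤ ((Nat.card ↥(T ^ n)) ^ (22 * K)) ^ 4 := Nat.pow_le_pow_left h2 4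
        _ = _ := by rw [← pow_mul, ← pow_mul]; congr 1; ring
    exact (Nat.pow_le_pow_iff_left (by omega)).1 h3

/-- the bound by a Mahler measure for `G''' = 1` -/
theorem eig3 (hA : S_ALG2.{u}) (hI : S_INTG.{u}) (hM : S_MAH) (hT : S_THA2.{u}) (hR : S_RHO.{u})
    (hP : S_PHI) {G : Type u} [Group G] (T : Set G)
    (hfin : T.Finite) (h1T : 1 ∈ T) (hinv : T⁻¹ = T) (hgen : closure T = ⊤)
    (habel : ∀ x ∈ commutator (commutator G), ∀ y ∈ commutator (commutator G), x * y = y * x)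
    (hFG : (commutator G).FG) (hNfg : (commutator (commutator G)).FG)
    (hnv : ¬ Group.IsVirtuallyNilpotent (commutator G)) :
    ∃ (χ : commutator G →* ℂˣ) (f : commutator G → ℂ) (m : commutator G),
      (∀ x ∈ commutator (commutator G), ∀ y ∈ commutator (commutator G), f (x * y) = f x + f y) ∧
      (∀ m, ∀ x ∈ commutator (commutator G), f (m * x * m⁻¹) = (χ m : ℂ) * f x) ∧
      (∃ x ∈ commutator (commutator G), f x ≠ 0) ∧ (∀ n > 0, (χ m) ^ n ≠ 1) ∧
      min 1 (Real.log (MM (χ m : ℂ))) / 704 ≤ H746UG.rho T := by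
  have hFG' : Group.FG (commutator G) := (Group.fg_iff_subgroup_fg _).2 hFG
  obtain ⟨χ, f, hf1, hf2, hf3, hinf⟩ := hA (commutator G) habel hNfg hnv
  have hint := hI (commutator G) hNfg χ f hf1 hf2 hf3
  obtain ⟨r, hr⟩ : ∃ r : ℕ, Module.rank ℤ
      (Additive (Abelianization (commutator (commutator G)))) ≤ (r : Cardinal.{u}) := by
    have h0 : Group.FG (commutator (commutator G)) := (Group.fg_iff_subgroup_fg _).2 hNfg
    have h1 : Group.FG (Abelianization (commutator (commutator G))) :=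
      Group.fg_of_surjective (f := Abelianization.of) (QuotientGroup.mk_surjective)
    have h2 : Module.Finite ℤ (Additive (Abelianization (commutator (commutator G)))) :=
      Module.Finite.iff_addGroup_fg.2 (GroupFG.iff_add_fg.1 h1)
    obtain ⟨r, hr⟩ := Cardinal.lt_aleph0.1 (Module.rank_lt_aleph0 ℤ
      (Additive (Abelianization (commutator (commutator G)))))
    exact ⟨r, hr.le⟩
  obtain ⟨c0, hc0, hdob⟩ := mm_dob
  set 𝒮 : Set ℝ := {y | ∃ m, (∀ n > 0, (χ m) ^ n ≠ 1) ∧ y = MM (χ m : ℂ)} with h𝒮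
  have hne : 𝒮.Nonempty := by
    obtain ⟨m, hm⟩ := hinf
    exact ⟨_, m, hm, rfl⟩
  have hroot : ∀ m, (∀ n > 0, (χ m) ^ n ≠ 1) → ∀ n > 0, (χ m : ℂ) ^ n ≠ 1 := by
    intro m hm n hn h
    apply hm n hn
    apply Units.ext
    rw [Units.val_pow_eq_pow_val, h, Units.val_one]
  set δ : ℝ := c0 / (Real.log (2 * r)) ^ 3 with hδ
  have hlow0 : ∀ m, (∀ n > 0, (χ m) ^ n ≠ 1) → (1 : ℝ) ≤ r ∧ δ ≤ Real.log (MM (χ m : ℂ)) := by
    intro m hm
    have h1 := hdob (χ m : ℂ) (hint m).1 (Units.ne_zero _) (hroot m hm)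
    have h2 : (minpoly ℤ (χ m : ℂ)).natDegree ≤ r := (hint m).2 r hr
    have h3 : 0 < (minpoly ℤ (χ m : ℂ)).natDegree := minpoly.natDegree_pos (hint m).1
    have h2' : ((minpoly ℤ (χ m : ℂ)).natDegree : ℝ) ≤ r := by exact_mod_cast h2
    have h3' : (1 : ℝ) ≤ (minpoly ℤ (χ m : ℂ)).natDegree := by exact_mod_cast h3
    refine ⟨h3'.trans h2', le_trans ?_ h1⟩
    have h4 : 0 < Real.log (2 * (minpoly ℤ (χ m : ℂ)).natDegree) := Real.log_pos (by linarith)
    have h5 : Real.log (2 * (minpoly ℤ (χ m : ℂ)).natDegree) ≤ Real.log (2 * r) :=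
      Real.log_le_log (by linarith) (by linarith)
    rw [hδ]
    gcongr
  have hr1 : (1 : ℝ) ≤ r := by
    obtain ⟨m, hm⟩ := hinf
    exact (hlow0 m hm).1
  have hδ0 : 0 < δ := by
    have : 0 < Real.log (2 * r) := Real.log_pos (by linarith)
    positivity
  have hMpos : ∀ m, 0 < MM (χ m : ℂ) := fun m => zero_lt_one.trans_le (MM_ge _ (hint m).1)
  have hlow : ∀ y ∈ 𝒮, Real.exp δ ≤ y := by
    rintro y ⟨m, hm, rfl⟩
    rw [← Real.le_log_iff_exp_le (hMpos m)]
    exact (hlow0 m hm).2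
  set M0 := sInf 𝒮 with hM0
  have hM0e : Real.exp δ ≤ M0 := le_csInf hne hlow
  have h1M0 : 1 < M0 := (Real.one_lt_exp_iff.2 hδ0).trans_le hM0e
  have hbdd : BddBelow 𝒮 := ⟨_, hlow⟩
  obtain ⟨K, hK, hgr⟩ := red2 hI hM hT G T hfin h1T hinv hgen hNfg χ f hf1 hf2 hf3 hinf (M0 ^ 2)
    (by nlinarith) (fun m => by
      by_cases h : ∃ n > 0, (χ m) ^ n = 1
      · exact Or.inl h
      · right
        push Not at h
        have h1 : M0 ≤ MM (χ m : ℂ) := csInf_le hbdd ⟨m, h, rfl⟩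
        have h2 : 0 ≤ M0 := by linarith
        gcongr)
  have h44 := hR G T hfin h1T K (phi (M0 ^ 2)) hK hgr
  have hphi := hP M0 h1M0.le
  obtain ⟨y, ⟨m, hm, rfl⟩, hy⟩ : ∃ y ∈ 𝒮, y < M0 ^ 2 :=
    exists_lt_of_csInf_lt hne (by nlinarith)
  refine ⟨χ, f, m, hf1, hf2, hf3, hm, ?_⟩
  have hlog : Real.log (MM (χ m : ℂ)) ≤ 2 * Real.log M0 := by
    have h1 := Real.log_le_log (hMpos m) hy.le
    rw [Real.log_pow] at h1
    exact_mod_cast h1
  have hL0 : 0 < Real.log M0 := Real.log_pos h1M0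
  have hmin : min 1 (Real.log (MM (χ m : ℂ))) ≤ 2 * min 1 (Real.log M0) := by
    rcases le_total 1 (Real.log M0) with h | h
    · rw [min_eq_left h]
      exact (min_le_left _ _).trans (by norm_num)
    · rw [min_eq_right h]
      exact (min_le_right _ _).trans hlog
  linarith

end Pool.Agent.N600.L3
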