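import Pool.Agent.N600.L3.Core2

set_option autoImplicit false

namespace Pool.Agent.N600.L3

open scoped Pointwise commutatorElement
open Subgroup Filter Topology Polynomial
open Pool.Agent.N600.G3 (Crossed AA CT cj hh cj_cj cj_one CT_sub comm_le cj_comm_mem f_one
  card_pow_mul_le one_le_card card_map_pow finite_pow derived_three)
open Pool.Agent.W963.GE (MM MM_ge UnitNotRoot mm_dob)
open Pool.Agent.H785R3.GrowthA (NoFree)
open Pool.Agent.TH53.UG (act act_of)
open Pool.Agent.Y552.CP (vn_of_surj vn_quot_mono)

universe u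

lemma rho_map {G G' : Type u} [Group G] [Group G'] (φ : G →* G') (T : Set G) (hfin : T.Finite)
    (h1T : 1 ∈ T) : H746UG.rho (φ '' T) ≤ H746UG.rho T := by
  refine le_of_tendsto_of_tendsto' (H746UG.tendsto_rho (φ '' T)) (H746UG.tendsto_rho T) ?_
  intro n
  have h1 := card_map_pow φ T hfin n
  have h2 : 1 ≤ Nat.card ↥((φ '' T) ^ n) :=
    one_le_card (hfin.image φ) ⟨1, h1T, map_one φ⟩ n
  have h3 : Real.log (Nat.card ↥((φ '' T) ^ n)) ≤ Real.log (Nat.card ↥(T ^ n)) :=
    Real.log_le_log (by exact_mod_cast h2) (by exact_mod_cast h1)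
  exact div_le_div_of_nonneg_right h3 (Nat.cast_nonneg _)

lemma der2_map (G : Type*) [Group G] :
    (commutator (commutator G)).map (commutator G).subtype = derivedSeries G 2 := by
  rw [map_subtype_commutator]
  rfl

lemma der3_map (G : Type*) [Group G] :
    (derivedSeries (commutator G) 2).map (commutator G).subtype = derivedSeries G 3 := by
  have h1 : derivedSeries (commutator G) 2 =
      ⁅commutator (commutator G), commutator (commutator G)⁆ := by
    rw [derivedSeries_succ, derivedSeries_one]
  rw [h1, map_commutator, der2_map]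
  rfl

/-- the dichotomy for an arbitrary group -/
theorem core5 (hA : S_ALG2.{u}) (hI : S_INTG.{u}) (hM : S_MAH) (hT : S_THA2.{u}) (hR : S_RHO.{u})
    (hP : S_PHI) (hH : S_HALL.{u}) (hE : S_EIGT.{u}) {G : Type u} [Group G] (T : Set G)
    (hfin : T.Finite) (h1T : 1 ∈ T) (hinv : T⁻¹ = T) (hgen : closure T = ⊤) :
    (∀ n : ℕ, 2 ^ n ≤ (Nat.card ↥(T ^ n)) ^ 88) ∨
      (Group.IsVirtuallyNilpotent (commutator G ⧸ derivedSeries (commutator G) 2) ∧
        (Group.IsNilpotent (derivedSeries G 2) → Group.IsVirtuallyNilpotent (commutator G))) ∨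
      ∃ (x : ℂ) (t : G), UnitNotRoot x ∧ t ∈ commutator G ∧
        (∀ p : ℤ[X], aeval (act (derivedSeries G 2) t) p = 0 → aeval x p = 0) ∧
        (∀ r : ℕ, Module.rank ℤ (Additive (Abelianization (derivedSeries G 2))) ≤
          (r : Cardinal.{u}) → (minpoly ℤ x).natDegree ≤ r) ∧
        min 1 (Real.log (MM x)) / 704 ≤ H746UG.rho T := by
  by_cases hNF : NoFree T 3
  swap
  · left
    exact fun n => (Pool.Agent.TH555.FG.two_pow_of_pair hfin hNF n).trans
      (Nat.pow_le_pow_right (one_le_card hfin h1T n) (by norm_num))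
  have hab : Group.IsNilpotent (G ⧸ commutator G) := by
    have : Group.IsNilpotent (Abelianization G) := CommGroup.isNilpotent
    exact this
  have hFG : (commutator G).FG :=
    Pool.Agent.TH555.FG.fg_of_nilpotent_quotient hfin hgen hNF (commutator G) hab
  let D := derivedSeries G 3
  let π : G →* G ⧸ D := QuotientGroup.mk' D
  have hπ : Function.Surjective π := QuotientGroup.mk'_surjective D
  have hgen' : closure (π '' T) = ⊤ := by
    rw [← MonoidHom.map_closure, hgen, ← MonoidHom.range_eq_map]
    exact MonoidHom.range_eq_top.2 hπ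
  have hinv' : (π '' T)⁻¹ = π '' T := by
    rw [← Set.image_inv, hinv]
  have h1' : (1 : G ⧸ D) ∈ π '' T := ⟨1, h1T, map_one π⟩
  have hbot : derivedSeries (G ⧸ D) 3 = ⊥ := by
    rw [← map_derivedSeries_eq hπ 3, eq_bot_iff]
    rintro _ ⟨x, hx, rfl⟩
    rw [Subgroup.mem_bot]
    exact (QuotientGroup.eq_one_iff x).2 hx
  have habel : ∀ x ∈ commutator (commutator (G ⧸ D)), ∀ y ∈ commutator (commutator (G ⧸ D)),
      x * y = y * x := by
    intro x hx y hy
    have hx' : (x : G ⧸ D) ∈ ⁅commutator (G ⧸ D), commutator (G ⧸ D)⁆ := by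
      rw [← map_subtype_commutator]; exact ⟨x, hx, rfl⟩
    have hy' : (y : G ⧸ D) ∈ ⁅commutator (G ⧸ D), commutator (G ⧸ D)⁆ := by
      rw [← map_subtype_commutator]; exact ⟨y, hy, rfl⟩
    have h1 : ⁅(x : G ⧸ D), (y : G ⧸ D)⁆ ∈ derivedSeries (G ⧸ D) 3 := by
      rw [derived_three]
      exact commutator_mem_commutator hx' hy'
    rw [hbot, Subgroup.mem_bot, commutatorElement_eq_one_iff_mul_comm] at h1
    exact Subtype.ext h1
  rcases fgs (π '' T) (hfin.image π) h1' hinv' hgen' habel with h | ⟨hFGq, hNq⟩
  · left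
    intro n
    exact (h n).trans (Nat.pow_le_pow_left (card_map_pow π T hfin n) 88)
  -- the derived subgroups
  have hcm : (commutator G).map π = commutator (G ⧸ D) := by
    rw [_root_.commutator_def, _root_.commutator_def, map_commutator, map_top_of_surjective π hπ]
  let j : commutator G →* commutator (G ⧸ D) :=
    (π.comp (commutator G).subtype).codRestrict _ (fun x => by
      rw [← hcm]
      exact mem_map_of_mem _ x.2)
  have hj : ∀ x, ((j x : commutator (G ⧸ D)) : G ⧸ D) = π x := fun x => rfl
  have hjs : Function.Surjective j := by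
    rintro ⟨y, hy⟩
    rw [← hcm] at hy
    obtain ⟨x, hx, rfl⟩ := hy
    exact ⟨⟨x, hx⟩, rfl⟩
  have hker : j.ker ≤ derivedSeries (commutator G) 2 := by
    intro m hm
    have h1 : π (m : G) = 1 := congrArg Subtype.val hm
    have h2 : (m : G) ∈ derivedSeries G 3 := (QuotientGroup.eq_one_iff _).1 h1
    rw [← der3_map] at h2
    obtain ⟨m', hm', h3⟩ := h2
    have : m' = m := Subtype.ext h3
    rwa [← this]
  by_cases hnv : Group.IsVirtuallyNilpotent (commutator (G ⧸ D))
  · right; left
    have hV : Group.IsVirtuallyNilpotent (commutator G ⧸ derivedSeries (commutator G) 2) := by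
      refine vn_quot_mono hker ?_
      exact vn_of_surj (φ := (QuotientGroup.quotientKerEquivOfSurjective j hjs).symm.toMonoidHom)
        (QuotientGroup.quotientKerEquivOfSurjective j hjs).symm.surjective hnv
    refine ⟨hV, fun hnil => ?_⟩
    have hFG' : Group.FG (commutator G) := (Group.fg_iff_subgroup_fg _).2 hFG
    refine hH (commutator G) ?_ hV
    have e1 : (commutator (commutator G)) ≃* ((commutator (commutator G)).map
        (commutator G).subtype) :=
      (commutator (commutator G)).equivMapOfInjective _ (commutator G).subtype_injective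
    have e2 : ((commutator (commutator G)).map (commutator G).subtype) ≃* (derivedSeries G 2) :=
      MulEquiv.subgroupCongr (der2_map G)
    exact Group.nilpotent_of_mulEquiv (e1.trans e2).symm
  right; right
  obtain ⟨χ, f, m, hf1, hf2, hf3, hm, hρ⟩ := eig3 hA hI hM hT hR hP (π '' T) (hfin.image π) h1'
    hinv' hgen' habel hFGq hNq hnv
  have hint := hI (commutator (G ⧸ D)) hNq χ f hf1 hf2 hf3
  obtain ⟨t, rfl⟩ := hjs m
  have hle : derivedSeries G 2 ≤ commutator G := by
    have h := derivedSeries_antitone G (show 1 ≤ 2 by norm_num)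
    rwa [derivedSeries_one] at h
  -- the map from `G''`
  have hkm : ∀ y : derivedSeries G 2, j ⟨y, hle y.2⟩ ∈ commutator (commutator (G ⧸ D)) := by
    rintro ⟨y, hy⟩
    have h1 : (⟨y, hle hy⟩ : commutator G) ∈ commutator (commutator G) := by
      have h2 := hy
      rw [← der2_map] at h2
      obtain ⟨m', hm', h3⟩ := h2
      have : m' = ⟨y, hle hy⟩ := Subtype.ext h3
      rwa [← this]
    have h4 : (commutator (commutator G)).map j ≤ commutator (commutator (G ⧸ D)) := by
      rw [_root_.commutator_def ↥(_root_.commutator G), map_commutator]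
      exact commutator_mono le_top le_top
    exact h4 (mem_map_of_mem _ h1)
  let k : derivedSeries G 2 →* commutator (commutator (G ⧸ D)) :=
    { toFun := fun y => ⟨j ⟨y, hle y.2⟩, hkm y⟩
      map_one' := by
        apply Subtype.ext
        show j ⟨((1 : derivedSeries G 2) : G), _⟩ = 1
        rw [← map_one j]; rfl
      map_mul' := by
        intro a b
        apply Subtype.ext
        show j ⟨((a * b : derivedSeries G 2) : G), _⟩ = j ⟨a, _⟩ * j ⟨b, _⟩
        rw [← map_mul]; rfl }
  have hk : ∀ y, ((k y : commutator (commutator (G ⧸ D))) : commutator (G ⧸ D)) =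
    j ⟨y, hle y.2⟩ := fun y => rfl
  have hks : Function.Surjective k := by
    rintro ⟨z, hz⟩
    have h4 : (commutator (commutator G)).map j = commutator (commutator (G ⧸ D)) := by
      rw [_root_.commutator_def ↥(_root_.commutator G), map_commutator,
        map_top_of_surjective j hjs]
      rfl
    rw [← h4] at hz
    obtain ⟨y, hy, rfl⟩ := hz
    have h5 : (y : G) ∈ derivedSeries G 2 := by
      rw [← der2_map]
      exact ⟨y, hy, rfl⟩
    exact ⟨⟨y, h5⟩, Subtype.ext rfl⟩
  let F0 : derivedSeries G 2 →* Multiplicative ℂ :=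
    { toFun := fun y => Multiplicative.ofAdd (f (k y))
      map_one' := by
        rw [map_one]
        have := f_one hf1
        show Multiplicative.ofAdd (f 1) = 1
        rw [this]; rfl
      map_mul' := by
        intro a b
        rw [map_mul]
        show Multiplicative.ofAdd (f ((k a : commutator (G ⧸ D)) * (k b : commutator (G ⧸ D)))) = _
        rw [hf1 _ (k a).2 _ (k b).2]; rfl }
  let F : Additive (Abelianization (derivedSeries G 2)) →+ ℂ :=
    AddMonoidHom.mk' (fun y => (Abelianization.lift F0 y.toMul).toAdd) (by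
      intro a b
      show (Abelianization.lift F0 (a.toMul * b.toMul)).toAdd = _
      rw [map_mul]; rfl)
  have hF : ∀ y : derivedSeries G 2, F (Additive.ofMul (Abelianization.of y)) = f (k y) := by
    intro y
    show (Abelianization.lift F0 (Abelianization.of y)).toAdd = _
    rw [Abelianization.lift_apply_of]; rfl
  have hFeq : ∀ y, F (act (derivedSeries G 2) t y) = (χ (j t) : ℂ) * F y := by
    intro y
    obtain ⟨y, rfl⟩ : ∃ y' : derivedSeries G 2, Additive.ofMul (Abelianization.of y') = y := by
      obtain ⟨y', hy'⟩ := QuotientGroup.mk_surjective (s := commutator (derivedSeries G 2)) y.toMul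
      exact ⟨y', congrArg Additive.ofMul hy'⟩
    rw [act_of, hF, hF]
    have h1 : (k (MulAut.conjNormal (t : G) y) : commutator (G ⧸ D)) =
        j t * (k y : commutator (G ⧸ D)) * (j t)⁻¹ := by
      rw [hk, hk, ← map_inv, ← map_mul, ← map_mul]
      congr 1
    rw [h1, hf2 _ _ (k y).2]
  have hF0 : F ≠ 0 := by
    obtain ⟨z, hz, hfz⟩ := hf3
    obtain ⟨y, hy⟩ := hks ⟨z, hz⟩
    intro h
    apply hfz
    have h1 := hF y
    rw [h, hy] at h1
    exact h1.symm
  refine ⟨χ (j t), t, ⟨Units.ne_zero _, (hint _).1, ?_, ?_⟩, t.2, hE _ _ _ F hF0 hFeq, ?_, ?_⟩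
  · have h1 := (hint (j t)⁻¹).1
    rw [map_inv, Units.val_inv_eq_inv_val] at h1
    exact h1
  · intro n hn h
    apply hm n hn
    apply Units.ext
    rw [Units.val_pow_eq_pow_val, h, Units.val_one]
  · intro r hr
    refine (hint (j t)).2 r (le_trans ?_ hr)
    have h1 : Function.Surjective (Abelianization.map k) := by
      intro z
      obtain ⟨z', hz'⟩ := QuotientGroup.mk_surjective
        (s := commutator (commutator (commutator (G ⧸ D)))) z
      obtain ⟨y, hy⟩ := hks z'
      refine ⟨Abelianization.of y, ?_⟩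
      rw [Abelianization.map_of, hy]
      exact hz'
    exact LinearMap.rank_le_of_surjective
      (MonoidHom.toAdditive (Abelianization.map k)).toIntLinearMap h1
  · exact hρ.trans (rho_map π T hfin h1T)

end Pool.Agent.N600.L3
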