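import Pool.Agent.N600.L3.Core5
import Pool.Agent.N123.L3.RI
import Pool.Agent.N711.L3.NOIF
import Pool.Agent.N216.L3.COL
import Pool.Agent.N31.L3.EPS2
import Pool.Agent.N79.L3.TRI2
import Pool.Agent.N622.L3.CNT2
import Pool.Agent.N136.L3.MAH
import Pool.Agent.N527.L3.PHI
import Pool.Agent.N401.L3.INTG
import Pool.Agent.N433.L3.EIG
import Pool.Agent.N49.L3.NOI
import Pool.Agent.N426.L3.LAT
import Pool.Agent.N572.L3.LIN
import Pool.Agent.N80.L3.ALG2
import Pool.Agent.N40.L3.HALL
import Pool.Agent.N624.L3.RHO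
import Pool.Agent.Y552.CP.Unc

set_option autoImplicit false

namespace Pool.Agent.N600.L3

open scoped Pointwise commutatorElement
open Subgroup Filter Topology Polynomial
open Pool.Agent.N600.G3 (one_le_card inv_mem_pow rho_ge_88)
open Pool.Agent.W963.GE (MM MM_ge UnitNotRoot mm_dob base log_base_ge eta_ge)
open Pool.Agent.TH53.UG (act act_of)
open Pool.Agent.Y552.CP (vn_of_surj vn_quot_mono)

universe u

theorem thA2 : S_THA2.{u} :=
  t_tha2 N918.G3.t_geo N454.G3.t_len
    (N622.L3.t_cnt2 N787.G3.t_ent2 (N99.G3.t_ent3 N711.G3.t_ent1)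
      (N572.L3.t_lin (N711.L3.t_noif (N49.L3.t_noi N123.L3.t_ri) N426.L3.t_lat) N216.L3.t_col)
      N693.G3.t_prd N79.L3.t_tri2 N31.L3.t_eps2)

/-- the metabelian quotient -/
theorem met1 {G : Type u} [Group G] (T : Set G) (hfin : T.Finite) (hgen : closure T = ⊤) :
    Real.log 2 / 4 ≤ H746UG.rho T ∨ Group.IsVirtuallyNilpotent (G ⧸ derivedSeries G 2) ∨
      ∃ (x : ℂ) (t : G), UnitNotRoot x ∧
        (∀ p : ℤ[X], aeval (act (derivedSeries G 1) t) p = 0 → aeval x p = 0) ∧
        (∀ r : ℕ, Module.rank ℤ (Additive (Abelianization (derivedSeries G 1))) ≤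
          (r : Cardinal.{u}) → (minpoly ℤ x).natDegree ≤ r) ∧
        min 1 (Real.log (MM x)) / 32 ≤ H746UG.rho T := by
  rcases Pool.Agent.TH53.UG.main_track hfin hgen (k := 1) le_rfl with
    h | ⟨hMf, t, b, x, hx0, hx, hp, hn⟩ | ⟨h, _⟩
  · left
    exact Pool.Agent.TH53.UG.rho_of_two T (L := 4) (by norm_num) h
  · have hxi : IsIntegral ℤ x := Pool.Agent.TH53.UG.integral_of_root _ b hp
    have h1 := Pool.Agent.TH53.UG.rho_of_dig T (L := 4) (by norm_num) hx0 hn
    by_cases hu : IsIntegral ℤ x⁻¹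
    · right; right
      have hE : ∀ p : ℤ[X], aeval (act (derivedSeries G 1) t) p = 0 → aeval x p = 0 := by
        intro p h0
        apply hp p
        have h0' : aeval (act (Pool.Agent.H785R3.GrowthA.gam G 1) t) p = 0 := h0
        rw [h0']
        rfl
      have hMf' : Module.Finite ℤ (Additive (Abelianization (derivedSeries G 1))) := hMf
      refine ⟨x, t, ⟨hx0, hxi, hu, hx⟩, hE, fun r hr => N433.L3.t_deg _ _ x hE r hr, ?_⟩
      have h2 := log_base_ge (MM_ge x hxi)
      have h3 := eta_ge x hx0 hxi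
      push_cast at h1
      linarith
    · left
      rw [H746UG.eta_eq_log_two x hx0 (fun h => hu h.2)] at h1
      exact_mod_cast h1
  · right; left
    have e : derivedSeries G 2 = ⁅Pool.Agent.H785R3.GrowthA.gam G 1,
        Pool.Agent.H785R3.GrowthA.gam G 1⁆ := by
      rw [derivedSeries_succ, derivedSeries_one]
      rfl
    exact vn_quot_mono e.ge h

/-- the case of a group with a symmetric generating set -/
theorem both {G : Type u} [Group G] (T : Set G)
    (hfin : T.Finite) (h1T : 1 ∈ T) (hinv : T⁻¹ = T) (hgen : closure T = ⊤) :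
    (Group.IsVirtuallyNilpotent (G ⧸ derivedSeries G 2) ∧
      Group.IsVirtuallyNilpotent (commutator G ⧸ derivedSeries (commutator G) 2) ∧
        (Group.IsNilpotent (derivedSeries G 2) → Group.IsVirtuallyNilpotent (commutator G))) ∨
      Real.log 2 / 88 ≤ H746UG.rho T ∨
      ∃ (x : ℂ) (t : G), UnitNotRoot x ∧
        ((∀ p : ℤ[X], aeval (act (derivedSeries G 1) t) p = 0 → aeval x p = 0) ∨
          (t ∈ commutator G ∧
            ∀ p : ℤ[X], aeval (act (derivedSeries G 2) t) p = 0 → aeval x p = 0)) ∧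
        (∀ r : ℕ, Module.rank ℤ (Additive (Abelianization (derivedSeries G 1))) ≤
            (r : Cardinal.{u}) →
          Module.rank ℤ (Additive (Abelianization (derivedSeries G 2))) ≤
            (r : Cardinal.{u}) → (minpoly ℤ x).natDegree ≤ r) ∧
        min 1 (Real.log (MM x)) / 704 ≤ H746UG.rho T := by
  have hl2 : 0 < Real.log 2 := Real.log_pos (by norm_num)
  rcases met1 T hfin hgen with h | h | ⟨x, t, h1, h2, h3, h4⟩
  · right; left
    linarith
  · rcases core5 N80.L3.t_alg2 N401.L3.t_intg N136.L3.t_mah thA2 N624.L3.t_rho N527.L3.t_phi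
      N40.L3.t_hall N433.L3.t_eigt T hfin h1T hinv hgen with h5 | h5 | ⟨x, t, h1, ht, h2, h3, h4⟩
    · exact Or.inr (Or.inl (rho_ge_88 T h5))
    · exact Or.inl ⟨h, h5⟩
    · exact Or.inr (Or.inr ⟨x, t, h1, Or.inr ⟨ht, h2⟩, fun r _ hr => h3 r hr, h4⟩)
  · refine Or.inr (Or.inr ⟨x, t, h1, Or.inl h2, fun r hr _ => h3 r hr, ?_⟩)
    have h5 : 0 ≤ min 1 (Real.log (MM x)) := le_min zero_le_one (Real.log_nonneg (MM_ge x h1.2.1))
    linarith

/-- the general case -/
theorem final : ∃ c : ℝ, 0 < c ∧ ∀ (G : Type u) [Group G] (S : Set G) (H : Subgroup G) (d : ℕ),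
    S.Finite → S⁻¹ = S → closure S = ⊤ → H.index ≠ 0 → H.index ≤ d →
    (Group.IsVirtuallyNilpotent (H ⧸ derivedSeries H 2) ∧
      Group.IsVirtuallyNilpotent (commutator H ⧸ derivedSeries (commutator H) 2) ∧
        (Group.IsNilpotent (derivedSeries H 2) → Group.IsVirtuallyNilpotent (commutator H))) ∨
    ((Real.log 2 / (88 * (2 * d - 1)) ≤ H746UG.rho S ∨
      ∃ (x : ℂ) (t : H), UnitNotRoot x ∧
        ((∀ p : ℤ[X], aeval (act (derivedSeries H 1) t) p = 0 → aeval x p = 0) ∨
          (t ∈ commutator H ∧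
            ∀ p : ℤ[X], aeval (act (derivedSeries H 2) t) p = 0 → aeval x p = 0)) ∧
        min 1 (Real.log (MM x)) / (704 * (2 * d - 1)) ≤ H746UG.rho S) ∧
      ∀ m : ℕ, Module.rank ℤ (Additive (Abelianization (derivedSeries H 1))) ≤
            (m : Cardinal.{u}) →
          Module.rank ℤ (Additive (Abelianization (derivedSeries H 2))) ≤
            (m : Cardinal.{u}) → c / (d * Real.log (2 * m) ^ 3) ≤ H746UG.rho S) := by
  obtain ⟨c, hc, hunc⟩ := Y552.CP.unc
  refine ⟨c / 22, by positivity, ?_⟩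
  intro G _ S H d hfin hsym hgen hH hd
  rcases S.eq_empty_or_nonempty with hS | hne
  · left
    have htriv : ∀ x : G, x = 1 := by
      intro x
      have hx : x ∈ closure S := by rw [hgen]; exact mem_top x
      rw [hS, Subgroup.closure_empty, Subgroup.mem_bot] at hx
      exact hx
    have hs : Subsingleton G := ⟨fun a b => by rw [htriv a, htriv b]⟩
    have hsH : Subsingleton H := inferInstance
    have vn : ∀ (X : Type u) [Group X] [Subsingleton X], Group.IsVirtuallyNilpotent X := by
      intro X _ _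
      exact ⟨⊤, (isNilpotent_iff_lowerCentralSeries _).2 ⟨0, Subsingleton.elim _ _⟩, inferInstance⟩
    have h1 : Subsingleton (H ⧸ derivedSeries H 2) := inferInstance
    have h2 : Subsingleton (commutator H) := inferInstance
    have h3 : Subsingleton (commutator H ⧸ derivedSeries (commutator H) 2) := inferInstance
    exact ⟨vn _, vn _, fun _ => vn _⟩
  have hd1 : 1 ≤ d := by omega
  set T := W963.GE.TT S H d with hT
  have hTfin : T.Finite := W963.GE.TT_finite S hfin H d
  have hTgen : closure T = ⊤ := W963.GE.TT_gen S hgen H hH hd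
  have h1T : (1 : H) ∈ T := by
    show ((1 : H) : G) ∈ (insert 1 S) ^ (2 * d - 1)
    have : (1 : G) ∈ insert 1 S := Set.mem_insert _ _
    simpa using Set.pow_mem_pow (n := 2 * d - 1) this
  have hinv1 : (insert 1 S)⁻¹ = insert 1 S := by
    rw [Set.inv_insert, inv_one, hsym]
  have hTinv : T⁻¹ = T := by
    ext x
    rw [Set.mem_inv]
    constructor
    · intro hx
      have := inv_mem_pow hinv1 (show ((x⁻¹ : H) : G) ∈ (insert 1 S) ^ (2 * d - 1) from hx)
      rw [← coe_inv, inv_inv] at this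
      exact this
    · intro hx
      exact inv_mem_pow hinv1 (show (x : G) ∈ (insert 1 S) ^ (2 * d - 1) from hx)
  rcases both T hTfin h1T hTinv hTgen with h | h
  · exact Or.inl h
  right
  have h4 := W963.GE.rho_TT S hfin hne H hd1
  have he : ((2 * d - 1 : ℕ) : ℝ) = 2 * d - 1 := by
    rw [Nat.cast_sub (by omega)]; push_cast; ring
  rw [he] at h4
  have hpos : (0 : ℝ) < 2 * d - 1 := by
    have : (1 : ℝ) ≤ d := by exact_mod_cast hd1
    linarith
  have key : ∀ {a b : ℝ}, a / b ≤ H746UG.rho T → a / (b * (2 * d - 1)) ≤ H746UG.rho S := by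
    intro a b h
    rw [← div_div, div_le_iff₀ hpos, mul_comm (H746UG.rho S)]
    exact h.trans h4
  constructor
  · rcases h with h | ⟨x, t, h1, h2, _, h3⟩
    · exact Or.inl (key h)
    · exact Or.inr ⟨x, t, h1, h2, key h3⟩
  · intro m hm1 hm2
    have hρ0 : 0 ≤ H746UG.rho S := by
      refine ge_of_tendsto' (H746UG.tendsto_rho S) fun n => ?_
      positivity
    rcases Nat.eq_zero_or_pos m with h0 | h0
    · subst h0
      simp only [Nat.cast_zero, mul_zero, Real.log_zero]
      norm_num
      exact hρ0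
    have h5 := hunc m 1 d (22 * H746UG.rho S) h0 le_rfl hd1 (by
      have e1 : (2 * ((1 : ℕ) : ℝ) - 1) = 1 := by norm_num
      rw [e1, one_mul]
      rcases h with h | ⟨x, t, h1, _, h2, h3⟩
      · left
        have h6 := key h
        have e2 : Real.log 2 / (4 * (2 * (d : ℝ) - 1)) = 22 * (Real.log 2 / (88 * (2 * d - 1))) := by
          field_simp; norm_num
        rw [e2]
        linarith
      · right
        refine ⟨x, h1.1, h1.2.1, h1.2.2.2, h2 m hm1 hm2, ?_⟩
        have h6 := key h3
        have e2 : min 1 (Real.log (MM x)) / (32 * (2 * (d : ℝ) - 1)) =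
            22 * (min 1 (Real.log (MM x)) / (704 * (2 * d - 1))) := by
          field_simp; ring
        rw [e2]
        linarith)
    have e3 : c / 22 / (d * Real.log (2 * m) ^ 3) =
        (c / (((1 : ℕ) : ℝ) * d * Real.log (2 * m) ^ 3)) / 22 := by
      rw [Nat.cast_one, one_mul, div_div, div_div, mul_comm (22 : ℝ)]
    rw [e3]
    linarith

end Pool.Agent.N600.L3
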