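import Pool.Agent.N600.L3.Tha2
import Pool.Agent.N600.G3.Red

set_option autoImplicit false

namespace Pool.Agent.N600.L3

open scoped Pointwise commutatorElement
open Subgroup
open Pool.Agent.N600.G3 (Crossed AA CT cj hh cj_cj cj_one CT_sub comm_le cj_comm_mem f_one)
open Pool.Agent.W963.GE (MM)

universe u

lemma expa_up {y : ℂ} {B : ℝ} (h : Expa ℂ y B) : Expa (ULift.{u} ℂ) (ULift.up y) B := by
  obtain ⟨n, x, h1, h2, h3, h4⟩ := h
  refine ⟨n, x, h1, h2, fun m c hc => h3 m c ?_, h4⟩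
  have h5 := congrArg (ULift.ringEquiv : ULift.{u} ℂ ≃+* ℂ) hc
  rw [map_sum, map_zero] at h5
  rw [← h5]
  refine Finset.sum_congr rfl fun i _ => ?_
  rw [map_mul, map_pow, map_intCast]
  rfl

lemma expa_mono {F : Type u} [Field F] {y : F} {B B' : ℝ} (hB : B ≤ B') (h : Expa F y B') :
    Expa F y B := by
  obtain ⟨n, x, h1, h2, h3, h4⟩ := h
  exact ⟨n, x, h1, h2, h3, hB.trans h4⟩

lemma charZero_up : CharZero (ULift.{u} ℂ) :=
  charZero_of_injective_ringHom (f := ((ULift.ringEquiv : ULift.{u} ℂ ≃+* ℂ).symm : ℂ →+* ULift.{u} ℂ))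
    (ULift.ringEquiv : ULift.{u} ℂ ≃+* ℂ).symm.injective

/-- growth of groups with an eigenfunction, in terms of Mahler measures -/
theorem red2 (hI : S_INTG.{u}) (hM : S_MAH) (hT : S_THA2.{u}) (G : Type u) [Group G] (T : Set G)
    (hfin : T.Finite) (h1T : 1 ∈ T) (hinv : T⁻¹ = T) (hgen : closure T = ⊤)
    (hNfg : (commutator (commutator G)).FG)
    (χ : commutator G →* ℂˣ) (f : commutator G → ℂ)
    (hf1 : ∀ x ∈ commutator (commutator G), ∀ y ∈ commutator (commutator G), f (x * y) = f x + f y)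
    (hf2 : ∀ m, ∀ x ∈ commutator (commutator G), f (m * x * m⁻¹) = (χ m : ℂ) * f x)
    (hf3 : ∃ x ∈ commutator (commutator G), f x ≠ 0) (hinf : ∃ m, ∀ n > 0, (χ m) ^ n ≠ 1)
    (B : ℝ) (hB : 1 ≤ B) (hE : ∀ m, (∃ n > 0, (χ m) ^ n = 1) ∨ B ≤ MM (χ m : ℂ) ^ 2) :
    ∃ K : ℕ, 0 < K ∧ ∀ R : ℕ, (K : ℝ) * R * phi B / 2 ≤ Real.log (Nat.card ↥(T ^ (22 * K * R))) := by
  have hint := hI (commutator G) hNfg χ f hf1 hf2 hf3
  obtain ⟨x0, hx0, hfx0⟩ := hf3
  obtain ⟨m0, hm0⟩ := hinf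
  -- a short commutator
  have hex : ∃ (g : G) (c : commutator G), (c : G) ∈ CT T ∧ ∀ n > 0, (χ (cj g c)) ^ n ≠ 1 := by
    by_contra hcon
    push Not at hcon
    let Q : Subgroup G :=
      { carrier := {x | ∃ hx : x ∈ commutator G, ∀ g : G, IsOfFinOrder (χ (cj g ⟨x, hx⟩))}
        mul_mem' := by
          rintro a b ⟨ha, ha'⟩ ⟨hb, hb'⟩
          refine ⟨mul_mem ha hb, fun g => ?_⟩
          have : (⟨a * b, mul_mem ha hb⟩ : commutator G) = ⟨a, ha⟩ * ⟨b, hb⟩ := rfl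
          rw [this, map_mul, map_mul]
          exact (ha' g).mul (hb' g)
        one_mem' := by
          refine ⟨one_mem _, fun g => ?_⟩
          have : (⟨1, one_mem _⟩ : commutator G) = 1 := rfl
          rw [this, map_one, map_one]
          exact IsOfFinOrder.one
        inv_mem' := by
          rintro a ⟨ha, ha'⟩
          refine ⟨inv_mem ha, fun g => ?_⟩
          have : (⟨a⁻¹, inv_mem ha⟩ : commutator G) = (⟨a, ha⟩ : commutator G)⁻¹ := rfl
          rw [this, map_inv, map_inv]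
          exact (ha' g).inv }
    have hQn : Q.Normal := by
      refine ⟨?_⟩
      rintro a ⟨ha, ha'⟩ h
      refine ⟨(commutator_normal ⊤ ⊤).conj_mem a ha h, fun g => ?_⟩
      have e : (⟨h * a * h⁻¹, (commutator_normal ⊤ ⊤).conj_mem a ha h⟩ : commutator G) =
          cj h ⟨a, ha⟩ := rfl
      rw [e, cj_cj]
      exact ha' (g * h)
    have hle : commutator G ≤ Q := by
      refine (comm_le hgen).trans (normalClosure_le_normal ?_)
      intro x hx
      refine ⟨CT_sub T hx, fun g => ?_⟩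
      obtain ⟨n, hn, h⟩ := hcon g ⟨x, CT_sub T hx⟩ hx
      exact isOfFinOrder_iff_pow_eq_one.2 ⟨n, hn, h⟩
    obtain ⟨hm, hm'⟩ := hle m0.2
    have h2 := hm' 1
    rw [cj_one] at h2
    obtain ⟨n, hn, h3⟩ := isOfFinOrder_iff_pow_eq_one.1 h2
    exact hm0 n hn h3
  obtain ⟨g, c, hc, hvc⟩ := hex
  let e : ℂ ≃+* ULift.{u} ℂ := (ULift.ringEquiv : ULift.{u} ℂ ≃+* ℂ).symm
  have hCZ : CharZero (ULift.{u} ℂ) := charZero_up
  let ψ : ℂˣ →* (ULift.{u} ℂ)ˣ := Units.map (e : ℂ →* ULift.{u} ℂ)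
  have hψ : Function.Injective ψ := Units.map_injective e.injective
  let χ' : commutator G →* (ULift.{u} ℂ)ˣ := ψ.comp (χ.comp (cj g))
  have hχ' : ∀ m, ((χ' m : (ULift.{u} ℂ)ˣ) : ULift.{u} ℂ) = e (χ (cj g m) : ℂ) := fun m => rfl
  let f' : commutator G → ULift.{u} ℂ := fun x => e (f (cj g x))
  have hf1' : ∀ x ∈ commutator (commutator G), ∀ y ∈ commutator (commutator G),
      f' (x * y) = f' x + f' y := by
    intro x hx y hy
    show e (f (cj g (x * y))) = _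
    rw [map_mul, hf1 _ (cj_comm_mem g hx) _ (cj_comm_mem g hy), map_add]
  have hf2' : ∀ m, ∀ x ∈ commutator (commutator G),
      f' (m * x * m⁻¹) = ((χ' m : (ULift.{u} ℂ)ˣ) : ULift.{u} ℂ) * f' x := by
    intro m x hx
    show e (f (cj g (m * x * m⁻¹))) = _
    rw [map_mul, map_mul, map_inv, hf2 _ _ (cj_comm_mem g hx), map_mul]
    rfl
  have hcm : ∀ m, c * m * c⁻¹ * m⁻¹ ∈ commutator (commutator G) := fun m =>
    commutator_mem_commutator (mem_top c) (mem_top m)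
  have hcr : Crossed χ' (fun m => f' (c * m * c⁻¹ * m⁻¹)) := by
    intro m m'
    have e : c * (m * m') * c⁻¹ * (m * m')⁻¹ =
        (c * m * c⁻¹ * m⁻¹) * (m * (c * m' * c⁻¹ * m'⁻¹) * m⁻¹) := by group
    show f' (c * (m * m') * c⁻¹ * (m * m')⁻¹) = _
    rw [e, hf1' _ (hcm m) _ (Normal.conj_mem inferInstance _ (hcm m') m), hf2' _ _ (hcm m')]
  have hpow : ∀ m n, (χ' m) ^ n = 1 ↔ (χ (cj g m)) ^ n = 1 := by
    intro m n
    show (ψ (χ (cj g m))) ^ n = 1 ↔ _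
    rw [← map_pow, ← map_one ψ, hψ.eq_iff]
  refine hT G T hfin h1T hinv hgen (ULift.{u} ℂ) χ' _ hcr c hc ?_ ?_ ?_ ?_ B hB ?_
  · show f' (c * c * c⁻¹ * c⁻¹) = 0
    have e1 : c * c * c⁻¹ * c⁻¹ = 1 := by group
    rw [e1]
    show e (f (cj g 1)) = 0
    rw [map_one, f_one hf1, map_zero]
  · intro n hn h
    exact hvc n hn ((hpow c n).1 h)
  · refine ⟨cj g⁻¹ x0, ?_⟩
    have h1 : cj g⁻¹ x0 ∈ commutator (commutator G) := cj_comm_mem _ hx0
    have h2 : f' (cj g⁻¹ x0) = e (f x0) := by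
      show e (f (cj g (cj g⁻¹ x0))) = _
      rw [cj_cj, mul_inv_cancel, cj_one]
    show f' (c * cj g⁻¹ x0 * c⁻¹ * (cj g⁻¹ x0)⁻¹) ≠ 0
    rw [hf1' _ (Normal.conj_mem inferInstance _ h1 c) _ (inv_mem h1), hf2' _ _ h1]
    have h3 : f' ((cj g⁻¹ x0)⁻¹) = - f' (cj g⁻¹ x0) := by
      have h4 := hf1' _ h1 _ (inv_mem h1)
      rw [mul_inv_cancel] at h4
      have h5 : f' 1 = 0 := by
        show e (f (cj g 1)) = 0
        rw [map_one, f_one hf1, map_zero]
      rw [h5] at h4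
      exact (eq_neg_of_add_eq_zero_right h4.symm)
    rw [h3, h2]
    have h6 : ((χ' c : (ULift.{u} ℂ)ˣ) : ULift.{u} ℂ) * e (f x0) + -e (f x0) =
        (((χ' c : (ULift.{u} ℂ)ˣ) : ULift.{u} ℂ) - 1) * e (f x0) := by ring
    rw [h6]
    refine mul_ne_zero (sub_ne_zero.2 ?_) ?_
    · intro h7
      apply hvc 1 one_pos
      rw [pow_one]
      have h8 : χ' c = 1 := Units.ext h7
      have := (hpow c 1).1 (by rw [pow_one]; exact h8)
      rwa [pow_one] at this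
    · intro h7
      exact hfx0 (e.injective (by rw [h7, map_zero]))
  · intro m
    rw [hχ']
    exact (hint (cj g m)).1.map (e : ℂ →+* ULift.{u} ℂ).toIntAlgHom
  · intro m
    rcases hE (cj g m) with ⟨n, hn, h⟩ | h
    · exact Or.inl ⟨n, hn, (hpow m n).2 h⟩
    · right
      rw [hχ']
      exact expa_mono h (expa_up (hM _ (hint (cj g m)).1))

end Pool.Agent.N600.L3
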