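import Pool.Agent.N600.G3.Stm
import Pool.Agent.W963.GE.Conj
import Pool.Agent.H746UG.Rate

/-!
# Statements of project L3 (helper600), page MP_d69e80_al

Growth of groups modulo the third derived subgroup and Mahler measures of algebraic units, without a
factor that depends on the rank.
-/

set_option autoImplicit false

namespace Pool.Agent.N600.L3

open scoped Pointwise
open Pool.Agent.N600.G3 (Crossed AA CT cj hh)

universe u

/-- a digit which is `0` for six, `1` for one and `-1` for one of the eight triples -/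
def ee (a : Bool × Bool × Bool) : ℤ :=
  if a.1 then (if a.2.1 then 1 else 0) - (if a.2.2 then 1 else 0) else 0

/-- the entropy constant -/
noncomputable def phi (B : ℝ) : ℝ := -Real.log ((3 + Real.exp (-(1 - 1 / B))) / 4)

/-- `u` has different complex conjugates `x j` outside the unit circle with
`∏ |x j| ^ 2 ≥ B` -/
def Expa (F : Type u) [Field F] (u : F) (B : ℝ) : Prop :=
  ∃ (n : ℕ) (x : Fin n → ℂ), Function.Injective x ∧ (∀ i, 1 < ‖x i‖) ∧
    (∀ (m : ℕ) (c : Fin m → ℤ), ∑ i, (c i : F) * u ^ (i : ℕ) = 0 →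
      ∀ j, ∑ i, (c i : ℂ) * x j ^ (i : ℕ) = 0) ∧ B ≤ W963.GE.M2 x

/-! ### counting -/

/-- an inequality between products -/
def S_RI : Prop :=
  ∀ (R : ℕ) (S : Type) [Fintype S] [Nonempty S] (x : Fin R → S → ℝ),
    (∀ r s, 0 ≤ x r s ∧ x r s ≤ 1) →
    (Fintype.card S : ℝ) * ∏ r : Fin R, (1 - (∑ s, x r s) / Fintype.card S) ≤
      ∑ s, ∏ r : Fin R, (1 - x r s / 2)

/-- multiplicative noise makes coincidences less probable (finite rings) -/
def S_NOI : Prop :=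
  ∀ (A : Type u) [CommRing A] [Finite A] (R : ℕ) (e : Fin R → A) (S : Type) [Fintype S]
    [Nonempty S] (σ : S → Aˣ),
    8 ^ R * Nat.card {f : Fin R → S × Bool × Bool // ∑ r : Fin R, e r * (σ (f r).1 : A) *
        ((if (f r).2.1 then 1 else 0) - (if (f r).2.2 then 1 else 0)) = 0} ≤
      (4 * Fintype.card S) ^ R *
        Nat.card {g : Fin R → Bool × Bool × Bool // ∑ r : Fin R, e r * ((ee (g r) : ℤ) : A) = 0}

/-- finite quotients of rings of algebraic integers -/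
def S_LAT : Prop :=
  ∀ (F : Type u) [Field F] [CharZero F] (s : Set F), s.Finite → (∀ x ∈ s, IsIntegral ℤ x) →
    ∀ Z : Set F, Z.Finite → (0 : F) ∉ Z → Z ⊆ (Algebra.adjoin ℤ s : Set F) →
    ∃ (A : Type u) (_ : CommRing A) (_ : Finite A) (π : (Algebra.adjoin ℤ s) →+* A),
      ∀ (z : F) (hz : z ∈ Algebra.adjoin ℤ s), z ∈ Z → π ⟨z, hz⟩ ≠ 0

/-- multiplicative noise makes coincidences less probable (algebraic units) -/
def S_NOIF : Prop :=
  ∀ (F : Type u) [Field F] [CharZero F] (R : ℕ) (t : Fˣ) (S : Type) [Fintype S] [Nonempty S]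
    (σ : S → Fˣ), IsIntegral ℤ (t : F) → IsIntegral ℤ ((t⁻¹ : Fˣ) : F) →
    (∀ s, IsIntegral ℤ (σ s : F) ∧ IsIntegral ℤ (((σ s)⁻¹ : Fˣ) : F)) →
    8 ^ R * Nat.card {f : Fin R → S × Bool × Bool // ∑ r : Fin R, (t : F) ^ (r : ℕ) * (σ (f r).1 : F) *
        ((if (f r).2.1 then 1 else 0) - (if (f r).2.2 then 1 else 0)) = 0} ≤
      (4 * Fintype.card S) ^ R *
        Nat.card {g : Fin R → Bool × Bool × Bool //
          ∑ r : Fin R, (t : F) ^ (r : ℕ) * ((ee (g r) : ℤ) : F) = 0}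

/-- Gaussian weights -/
def S_COL : Prop :=
  ∀ (n : ℕ) (x : Fin n → ℂ), Function.Injective x → (∀ i, 1 < ‖x i‖) → ∀ R : ℕ,
    (Nat.card {g : Fin R → Bool × Bool × Bool //
      ∀ j, ∑ r : Fin R, ((ee (g r) : ℤ) : ℂ) * x j ^ (r : ℕ) = 0} : ℝ) ≤ (6 + 2 * W963.GE.al x) ^ R

/-- one line -/
def S_LIN : Prop :=
  ∀ (F : Type u) [Field F] [CharZero F] (t : Fˣ) (B : ℝ), 1 ≤ B → Expa F (t : F) B →
    IsIntegral ℤ (t : F) → IsIntegral ℤ ((t⁻¹ : Fˣ) : F) →
    ∀ (K : ℕ) (k : Fin K) (σ : (Fin K → Bool) → Fˣ),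
    (∀ x x', (∀ i < k, x i = x' i) → σ x = σ x') →
    (∀ x, IsIntegral ℤ (σ x : F) ∧ IsIntegral ℤ (((σ x)⁻¹ : Fˣ) : F)) → ∀ R : ℕ,
    ∑ δ : Fin K → Fin R → Bool, Real.log (Nat.card {x : Fin R → Bool //
        ∑ r : Fin R, (t : F) ^ (r : ℕ) * (σ (fun i => δ i r) : F) * (if x r then 1 else 0) =
        ∑ r : Fin R, (t : F) ^ (r : ℕ) * (σ (fun i => δ i r) : F) * (if δ k r then 1 else 0)}) ≤
      2 ^ (K * R) * (R * (Real.log 2 - phi B))

/-- half of the characters can be made non-trivial at the same time -/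
def S_EPS2 : Prop :=
  ∀ (M : Type u) [Group M] (Γ : Type u) [CommGroup Γ] (K : ℕ) (w : Fin K → M →* Γ)
    (c : Fin K → M), (∀ i, w i (c i) ≠ 1) →
    ∃ ε : Fin K → Bool, K ≤ 2 * (Set.ncard {k : Fin K | w k (AA c ε) ≠ 1})

/-- crossed homomorphisms on the products `AA d x`, with noise of the form `χ m` -/
def S_TRI2 : Prop :=
  ∀ (M : Type u) [Group M] (F : Type u) [Field F] (χ : M →* Fˣ) (b : M → F), Crossed χ b →
    ∀ (K : ℕ) (d : Fin K → M) (k : Fin K), (∀ j, k < j → b (d j) = 0) →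
    ∃ (g : (Fin K → Bool) → F) (σ : (Fin K → Bool) → Fˣ),
      (∀ x x', (∀ i < k, x i = x' i) → g x = g x' ∧ σ x = σ x') ∧
      (∀ x, ∃ m : M, σ x = χ m) ∧
      ∀ x, b (AA d x) = g x + (σ x : F) * (if x k then b (d k) else 0)

/-- the counting theorem -/
def S_CNT2 : Prop :=
  ∀ (M : Type u) [Group M] (F : Type u) [Field F] [CharZero F] (K : ℕ)
    (χ : Fin K → M →* Fˣ) (b : Fin K → M → F), (∀ k, Crossed (χ k) (b k)) →
    ∀ c d : Fin K → M, (∀ i j, b i (c j) = 0) → (∀ i j, i < j → b i (d j) = 0) →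
    (∀ i, b i (d i) ≠ 0) → (∀ i, ∀ n > 0, (χ i (c i)) ^ n ≠ 1) →
    (∀ i m, IsIntegral ℤ (χ i m : F)) → ∀ B : ℝ, 1 ≤ B →
    (∀ i m, (∃ n > 0, (χ i m) ^ n = 1) ∨ Expa F (χ i m : F) B) →
    ∃ ε : Fin K → Bool, ∀ R : ℕ,
      (K : ℝ) * R * phi B / 2 ≤ Real.log (Nat.card (Set.range fun δ : Fin R → Fin K → Bool =>
        (List.ofFn fun r => AA d (δ r) * AA c ε * (AA d (δ r))⁻¹).prod))

/-- growth from a crossed homomorphism -/
def S_THA2 : Prop :=
  ∀ (G : Type u) [Group G] (T : Set G), T.Finite → 1 ∈ T → T⁻¹ = T →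
    Subgroup.closure T = ⊤ →
    ∀ (F : Type u) [Field F] [CharZero F] (χ : commutator G →* Fˣ) (b : commutator G → F),
    Crossed χ b → ∀ c : commutator G, (c : G) ∈ CT T → b c = 0 → (∀ n > 0, (χ c) ^ n ≠ 1) →
    (∃ m, b m ≠ 0) → (∀ m, IsIntegral ℤ (χ m : F)) → ∀ B : ℝ, 1 ≤ B →
    (∀ m, (∃ n > 0, (χ m) ^ n = 1) ∨ Expa F (χ m : F) B) →
    ∃ K : ℕ, 0 < K ∧ ∀ R : ℕ, (K : ℝ) * R * phi B / 2 ≤ Real.log (Nat.card ↥(T ^ (22 * K * R)))

/-! ### algebra and analysis -/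

/-- the conjugates of an algebraic integer -/
def S_MAH : Prop :=
  ∀ y : ℂ, IsIntegral ℤ y → Expa ℂ y (W963.GE.MM y ^ 2)

/-- the size of the constant -/
def S_PHI : Prop :=
  ∀ M : ℝ, 1 ≤ M → min 1 (Real.log M) / 8 ≤ phi (M ^ 2)

/-- eigenvectors for metabelian groups which are not virtually nilpotent -/
def S_ALG2 : Prop :=
  ∀ (M : Type u) [Group M] [Group.FG M],
    (∀ x ∈ commutator M, ∀ y ∈ commutator M, x * y = y * x) → (commutator M).FG →
    ¬ Group.IsVirtuallyNilpotent M →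
    ∃ (χ : M →* ℂˣ) (f : M → ℂ),
      (∀ x ∈ commutator M, ∀ y ∈ commutator M, f (x * y) = f x + f y) ∧
      (∀ m, ∀ x ∈ commutator M, f (m * x * m⁻¹) = (χ m : ℂ) * f x) ∧
      (∃ x ∈ commutator M, f x ≠ 0) ∧ (∃ m, ∀ n > 0, (χ m) ^ n ≠ 1)

/-- the values of the characters are algebraic integers of bounded degree -/
def S_INTG : Prop :=
  ∀ (M : Type u) [Group M], (commutator M).FG →
    ∀ (χ : M →* ℂˣ) (f : M → ℂ),
      (∀ x ∈ commutator M, ∀ y ∈ commutator M, f (x * y) = f x + f y) →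
      (∀ m, ∀ x ∈ commutator M, f (m * x * m⁻¹) = (χ m : ℂ) * f x) →
      (∃ x ∈ commutator M, f x ≠ 0) →
    ∀ m, IsIntegral ℤ (χ m : ℂ) ∧ ∀ r : ℕ,
      Module.rank ℤ (Additive (Abelianization (commutator M))) ≤ (r : Cardinal.{u}) →
      (minpoly ℤ (χ m : ℂ)).natDegree ≤ r

/-- eigenvalues and characters -/
def S_EIGT : Prop :=
  ∀ (A : Type u) [AddCommGroup A] (t : Module.End ℤ A) (z : ℂ) (F : A →+ ℂ), F ≠ 0 →
    (∀ y, F (t y) = z * F y) → ∀ p : Polynomial ℤ, Polynomial.aeval t p = 0 →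
    Polynomial.aeval z p = 0

/-- degrees of eigenvalues -/
def S_DEG : Prop :=
  ∀ (A : Type u) [AddCommGroup A] [Module.Finite ℤ A] (t : Module.End ℤ A) (z : ℂ),
    (∀ p : Polynomial ℤ, Polynomial.aeval t p = 0 → Polynomial.aeval z p = 0) → ∀ r : ℕ,
    Module.rank ℤ A ≤ (r : Cardinal.{u}) → (minpoly ℤ z).natDegree ≤ r

/-- P. Hall's criterion for groups with a nilpotent derived subgroup -/
def S_HALL : Prop :=
  ∀ (M : Type u) [Group M] [Group.FG M], Group.IsNilpotent (commutator M) →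
    Group.IsVirtuallyNilpotent (M ⧸ derivedSeries M 2) → Group.IsVirtuallyNilpotent M

/-- the growth rate -/
def S_RHO : Prop :=
  ∀ (G : Type u) [Group G] (T : Set G), T.Finite → 1 ∈ T → ∀ (K : ℕ) (p : ℝ), 0 < K →
    (∀ R : ℕ, (K : ℝ) * R * p / 2 ≤ Real.log (Nat.card ↥(T ^ (22 * K * R)))) →
    p / 44 ≤ H746UG.rho T

end Pool.Agent.N600.L3
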